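import Mathlib
import Pool.Agent.H708Z.HaarBall

/-!
The group of orientation-preserving homeomorphisms of the closed ball is the union of a meager set
and a Haar null set.  The witness measure is the Haar measure of a circle of rotations; by the
Borsuk-Ulam theorem no conjugate of this circle has only small orbits, so two-sided translates of
small balls have uniformly small measure.
-/

set_option autoImplicit false

namespace Pool.Agent.Results.MP_ee7e89_lc.BallDecomposition

open MeasureTheory

/-- The closed unit ball of a normed space. -/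
abbrev Ball (E : Type) [NormedAddCommGroup E] : Type := Metric.closedBall (0 : E) 1

/-- The unit sphere of a normed space. -/
abbrev Sphere (E : Type) [NormedAddCommGroup E] : Type := Metric.sphere (0 : E) 1

/-- The orientation-preserving homeomorphisms of the ball: continuous bijections whose restriction
to the boundary sphere is a self-map of the sphere homotopic to the identity (degree one).  It is a
subspace of the space of continuous self-maps with the compact-open topology. -/
def Hplus (E : Type) [NormedAddCommGroup E] : Set C(Ball E, Ball E) :=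
  {f | Function.Bijective f ∧ ∃ g : C(Sphere E, Sphere E),
    (∀ x : Sphere E, (f ⟨x, Metric.sphere_subset_closedBall x.2⟩ : E) = (g x : E)) ∧
    g.Homotopic (ContinuousMap.id (Sphere E))}

/-- The two-sided translate `g B h` in a set `G` of continuous self-maps. -/
def translate {X : Type} [TopologicalSpace X] {G : Set C(X, X)} (g : G) (B : Set G) (h : G) :
    Set G :=
  {x | ∃ b ∈ B, (x : C(X, X)) = (g : C(X, X)).comp ((b : C(X, X)).comp (h : C(X, X)))}

/-- Haar null sets in the sense of Christensen. -/
def IsHaarNull {X : Type} [TopologicalSpace X] {G : Set C(X, X)} (N : Set G) : Prop :=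
  ∃ B : Set G, N ⊆ B ∧ @MeasurableSet G (borel G) B ∧
    ∃ μ : @Measure G (borel G), IsProbabilityMeasure μ ∧ ∀ g h : G, μ (translate g B h) = 0

/-- `G` is the union of a meager set and a Haar null set. -/
def Splits {X : Type} [TopologicalSpace X] (G : Set C(X, X)) : Prop :=
  ∃ M N : Set G, IsMeagre M ∧ IsHaarNull N ∧ M ∪ N = Set.univ

theorem result (n : ℕ) (hn : 2 ≤ n) : Splits (Hplus (EuclideanSpace ℝ (Fin n))) := by
  obtain ⟨m, rfl⟩ : ∃ m, n = m + 2 := ⟨n - 2, by omega⟩
  let : MeasurableSpace (Hplus (EuclideanSpace ℝ (Fin (m + 2)))) := borel _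
  have : BorelSpace (Hplus (EuclideanSpace ℝ (Fin (m + 2)))) := ⟨rfl⟩
  obtain ⟨B, h1, h2, μ, h3, h4⟩ := Pool.Agent.H708Z.HaarBall.main m
    (Hplus (EuclideanSpace ℝ (Fin (m + 2))))
    (fun _ hf => hf.1) (fun z => ⟨Pool.Agent.H708Z.HaarBall.rho_bijective m z,
      (Pool.Agent.H708Z.HaarBall.actS m).curry z, fun _ => rfl,
      Pool.Agent.H708Z.HaarBall.homotopic_id m z⟩)
  exact ⟨Bᶜ, B, h1, ⟨B, subset_rfl, h2, μ, h3, h4⟩, Set.compl_union_self B⟩

end Pool.Agent.Results.MP_ee7e89_lc.BallDecomposition
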